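import Pool.Agent.helper1.CD.Spec
import Pool.Agent.helper68.CH.ZBD

/-!
# Project CD (MP_2e0e07_nt), row SMB: sum over all places; places of non-prime norm
-/

set_option autoImplicit false

open NumberField IsDedekindDomain Complex Pool.Agent.CH Pool.Agent.GK

namespace Pool.Agent.CD

/-- the prime number below a place -/
theorem SMB_data (K : Type) [Field K] [NumberField K] (v : Pl K) : ∃ p f : ℕ, p.Prime ∧ f ≠ 0 ∧ nv K v = p ^ f ∧
    v.asIdeal ∣ Ideal.span {(p : 𝓞 K)} ∧ (nv K v).minFac = p := by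
  obtain ⟨p, f, hp, hf, hN, hd⟩ := ZBD_prime (Ideal.prime_of_isPrime v.ne_bot v.isPrime)
  refine ⟨p, f, hp, hf, hN, hd, ?_⟩
  unfold nv
  rw [hN, hp.pow_minFac hf]

/-- there are at most `[K : ℚ]` places over a prime number -/
theorem SMB_card (K : Type) [Field K] [NumberField K] (V : Finset (Pl K)) (k : ℕ) :
    (V.filter (fun v => (nv K v).minFac = k)).card ≤ Module.finrank ℚ K := by
  classical
  rcases (V.filter (fun v => (nv K v).minFac = k)).eq_empty_or_nonempty with h0 | ⟨v0, hv0⟩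
  · rw [h0, Finset.card_empty]
    exact Nat.zero_le _
  obtain ⟨p, f0, hp, hf0, hN0, hd0, hm0⟩ := SMB_data K v0
  have hkp : k = p := by rw [← hm0]; exact ((Finset.mem_filter.1 hv0).2).symm
  subst hkp
  set W := V.filter (fun v => (nv K v).minFac = k) with hW
  have hinj : Set.InjOn (fun v : Pl K => v.asIdeal) (W : Set (Pl K)) := by
    intro a _ b _ hab
    exact HeightOneSpectrum.ext hab
  have hdat : ∀ v ∈ W, ∃ f : ℕ, f ≠ 0 ∧ Ideal.absNorm v.asIdeal = k ^ f ∧ v.asIdeal ∣ Ideal.span {(k : 𝓞 K)} := by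
    intro v hv
    obtain ⟨p', f', hp', hf', hN', hd', hm'⟩ := SMB_data K v
    have : p' = k := by rw [← hm']; exact (Finset.mem_filter.1 hv).2
    subst this
    exact ⟨f', hf', hN', hd'⟩
  have h9 : ∏ v ∈ W, v.asIdeal ∣ Ideal.span {(k : 𝓞 K)} := by
    rw [← Finset.prod_image (g := fun v : Pl K => v.asIdeal) (f := fun P : Ideal (𝓞 K) => P) (fun a ha b hb hab => hinj ha hb hab)]
    refine Finset.prod_primes_dvd _ ?_ ?_
    · intro P hP
      obtain ⟨v, _, rfl⟩ := Finset.mem_image.1 hP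
      exact Ideal.prime_of_isPrime v.ne_bot v.isPrime
    · intro P hP
      obtain ⟨v, hv, rfl⟩ := Finset.mem_image.1 hP
      obtain ⟨f, _, _, hd⟩ := hdat v hv
      exact hd
  have h10 : ∏ v ∈ W, Ideal.absNorm v.asIdeal ∣ k ^ Module.finrank ℚ K := by
    have h11 := map_dvd (Ideal.absNorm (S := 𝓞 K)) h9
    rw [map_prod, Ideal.absNorm_span_natCast, RingOfIntegers.rank] at h11
    exact h11
  have h12 : ∏ v ∈ W, Ideal.absNorm v.asIdeal ≤ k ^ Module.finrank ℚ K := Nat.le_of_dvd (pow_pos hp.pos _) h10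
  have h13 : k ^ W.card ≤ ∏ v ∈ W, Ideal.absNorm v.asIdeal := by
    rw [← Finset.prod_const]
    refine Finset.prod_le_prod' fun v hv => ?_
    obtain ⟨f, hf, hN, _⟩ := hdat v hv
    rw [hN]
    exact Nat.le_self_pow hf k
  exact (Nat.pow_le_pow_iff_right hp.one_lt).1 (h13.trans h12)

/-- finite sums over places -/
theorem SMB_fin (K : Type) [Field K] [NumberField K] (g : ℕ → ℝ) (hg : ∀ k, 0 ≤ g k) (hs : Summable g) (V : Finset (Pl K)) (F : Pl K → ℝ)
    (hF : ∀ v ∈ V, F v ≤ g ((nv K v).minFac)) : ∑ v ∈ V, F v ≤ Module.finrank ℚ K * ∑' k, g k := by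
  classical
  calc ∑ v ∈ V, F v ≤ ∑ v ∈ V, g ((nv K v).minFac) := Finset.sum_le_sum hF
    _ = ∑ k ∈ V.image (fun v => (nv K v).minFac), (V.filter (fun v => (nv K v).minFac = k)).card • g k :=
        Finset.sum_comp g (fun v => (nv K v).minFac)
    _ ≤ ∑ k ∈ V.image (fun v => (nv K v).minFac), (Module.finrank ℚ K : ℝ) * g k := by
        refine Finset.sum_le_sum fun k _ => ?_
        rw [nsmul_eq_mul]
        exact mul_le_mul_of_nonneg_right (by exact_mod_cast SMB_card K V k) (hg k)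
    _ = Module.finrank ℚ K * ∑ k ∈ V.image (fun v => (nv K v).minFac), g k := by rw [Finset.mul_sum]
    _ ≤ Module.finrank ℚ K * ∑' k, g k := by
        refine mul_le_mul_of_nonneg_left ?_ (Nat.cast_nonneg _)
        exact hs.sum_le_tsum _ (fun k _ => hg k)

theorem SMB : SMB_stmt := by
  intro K _ _
  have h1 : ∀ s : ℝ, 1 < s → Summable fun v : Pl K => (nv K v : ℝ) ^ (-s) := by
    intro s hs
    have hsum : Summable fun k : ℕ => (k : ℝ) ^ (-s) := Real.summable_nat_rpow.2 (by linarith)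
    refine summable_of_sum_le (c := Module.finrank ℚ K * ∑' k : ℕ, (k : ℝ) ^ (-s)) (fun v => Real.rpow_nonneg (Nat.cast_nonneg _) _) fun V => ?_
    refine SMB_fin K (fun k : ℕ => (k : ℝ) ^ (-s)) (fun k => Real.rpow_nonneg (Nat.cast_nonneg _) _) hsum V _ fun v _ => ?_
    obtain ⟨p, f, hp, hf, hN, _, hm⟩ := SMB_data K v
    rw [hm, hN]
    refine Real.rpow_le_rpow_of_nonpos (by exact_mod_cast hp.pos) ?_ (by linarith)
    exact_mod_cast Nat.le_self_pow hf p
  refine ⟨h1, Module.finrank ℚ K * ∑' k : ℕ, (k : ℝ) ^ (-2 : ℝ), ?_⟩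
  intro s hs
  unfold DS
  have hsum : Summable fun k : ℕ => (k : ℝ) ^ (-2 : ℝ) := Real.summable_nat_rpow.2 (by norm_num)
  refine ((h1 s hs).subtype {v | ¬ (nv K v).Prime}).tsum_le_of_sum_le fun u => ?_
  have h2 : ∑ v ∈ u, (((fun v : Pl K => (nv K v : ℝ) ^ (-s)) ∘ Subtype.val) v) = ∑ v ∈ u.map (Function.Embedding.subtype _), (nv K v : ℝ) ^ (-s) := by
    rw [Finset.sum_map]
    rfl
  refine (le_of_eq h2).trans ?_
  refine SMB_fin K (fun k : ℕ => (k : ℝ) ^ (-2 : ℝ)) (fun k => Real.rpow_nonneg (Nat.cast_nonneg _) _) hsum _ _ fun v hv => ?_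
  obtain ⟨w, _, rfl⟩ := Finset.mem_map.1 hv
  have hw : ¬ (nv K w.1).Prime := w.2
  obtain ⟨p, f, hp, hf, hN, _, hm⟩ := SMB_data K w.1
  have hf2 : 2 ≤ f := by
    rcases Nat.lt_or_ge f 2 with h | h
    · exfalso
      have : f = 1 := by omega
      rw [this, pow_one] at hN
      rw [hN] at hw
      exact hw hp
    · exact h
  show ((nv K w.1 : ℕ) : ℝ) ^ (-s) ≤ (((nv K w.1).minFac : ℕ) : ℝ) ^ (-2 : ℝ)
  rw [hm, hN]
  have hp1 : (1 : ℝ) ≤ p := by exact_mod_cast hp.one_lt.le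
  have hp0 : (0 : ℝ) < p := by linarith
  have h3 : ((p : ℝ)) ^ (-2 : ℝ) = ((p : ℝ) ^ 2) ^ (-1 : ℝ) := by
    rw [← Real.rpow_natCast, ← Real.rpow_mul hp0.le]
    norm_num
  rw [h3]
  have h4 : (p : ℝ) ^ 2 ≤ ((p ^ f : ℕ) : ℝ) := by
    push_cast
    exact pow_le_pow_right₀ hp1 hf2
  calc ((p ^ f : ℕ) : ℝ) ^ (-s) ≤ ((p ^ f : ℕ) : ℝ) ^ (-1 : ℝ) := by
        refine Real.rpow_le_rpow_of_exponent_le ?_ (by linarith)
        have : (1 : ℝ) ≤ (p : ℝ) ^ 2 := one_le_pow₀ hp1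
        linarith
    _ ≤ ((p : ℝ) ^ 2) ^ (-1 : ℝ) := Real.rpow_le_rpow_of_nonpos (by positivity) h4 (by norm_num)

end Pool.Agent.CD
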